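import Pool.Agent.Lib_MP_b1f496_an.Dense

/-!
# Strongly irreducible subshifts whose automorphism group is not residually finite

MP_b1f496_an.  For every subshift `X` over `ℤ²`, the automorphism group of `X × {0,1}^(ℤ²)` is
residually finite if and only if the periodic configurations are dense in `X`.  There is a strongly
irreducible subshift over `ℤ²` whose automorphism group is not residually finite.

* `shift g x` is the configuration `h ↦ x (h + g)`, `IsSubshift`, `StronglyIrreducible` and
  `IsPeriodic` are the notions of the problem (file `Lib_MP_b1f496_an/Flows.lean`).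
* `Aut X` is the group of the homeomorphisms of `X` that commute with all shifts, `full X` is the
  product of `X` with the full shift on two symbols, `PeriodicDense X` says that `X` is contained in
  the closure of the set of its periodic configurations (file `Lib_MP_b1f496_an/Aut.lean`).
* `Group.ResiduallyFinite` is the notion of Mathlib: the intersection of all normal subgroups of
  finite index is trivial.
-/

namespace Pool.Agent.Results.MP_b1f496_an.AutNotResiduallyFinite

open Pool.Agent.Lib_MP_b1f496_an

/-- (1) `Aut (X × {0,1}^(ℤ²))` is residually finite iff the periodic configurations are dense in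
`X`.  (2) Some strongly irreducible subshift over `ℤ²` has an automorphism group that is not
residually finite (and no periodic configuration). -/
theorem result :
    (∀ (A : Type) [Finite A] [TopologicalSpace A] [DiscreteTopology A] (X : Set (ℤ × ℤ → A)),
      IsSubshift X → (Group.ResiduallyFinite (Aut (full X)) ↔ PeriodicDense X)) ∧
    ∃ X : Set (ℤ × ℤ → Fin 4 × Bool), IsSubshift X ∧ StronglyIrreducible X ∧ X.Nonempty ∧
      (∀ x ∈ X, ¬ IsPeriodic x) ∧ ¬ Group.ResiduallyFinite (Aut X) := by
  refine ⟨fun A _ _ _ X hX => residuallyFinite_iff hX, full XX, isSubshift_full isSubshift_XX,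
    stronglyIrreducible_full stronglyIrreducible_XX, ?_, ?_, ?_⟩
  · obtain ⟨x, hx⟩ := nonempty_XX
    exact ⟨fun u => (x u, false), hx⟩
  · intro z hz hper
    refine not_periodic (x := fun u => (z u).1) hz ?_
    refine (Set.Finite.image (fun w : ℤ × ℤ → Fin 4 × Bool => fun u => (w u).1) hper).subset ?_
    rintro _ ⟨g, rfl⟩
    exact ⟨_, ⟨g, rfl⟩, rfl⟩
  · rw [residuallyFinite_iff isSubshift_XX]
    intro hd
    obtain ⟨x, hx⟩ := nonempty_XX
    have h1 := hd hx
    have h2 : {x | x ∈ XX ∧ IsPeriodic x} = ∅ := by
      ext y
      simp only [Set.mem_setOf_eq, Set.mem_empty_iff_false, iff_false, not_and]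
      exact fun hy => not_periodic hy
    rw [h2, closure_empty] at h1
    exact h1

end Pool.Agent.Results.MP_b1f496_an.AutNotResiduallyFinite
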